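import Pool.Agent.H41.CO.Final
import Pool.Agent.H965.CO.Euler
import Pool.Agent.H928.CO.Perms
import Pool.Agent.H53.CO.Merge
import Pool.Agent.H801.CO.Two
import Pool.Agent.H922.CO.Half
import Pool.Agent.H43.CO.Sel
import Pool.Agent.H675.CO.Reps
import Pool.Agent.H41.CO.Split
import Pool.Agent.H703.CO.Xdeg
import Pool.Agent.H274.CO.Pure
import Pool.Agent.H105.CO.Bound
import Pool.Agent.H32.CO.Num
import Pool.Agent.H873.CO.Conv

set_option autoImplicit false

/-!
MP_5bc4af_co: every Eulerian graph of maximum degree `D` has a cycle odd-cover with at most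
`D / 2 + C D^(9/10)` cycles.
-/

namespace Pool.Agent.Results.MP_5bc4af_co.AsymptoticOddCover

open Pool.Agent.H41.CO

theorem half : S_HALF :=
  Pool.Agent.H922.CO.half Pool.Agent.H965.CO.euler Pool.Agent.H928.CO.perms
    Pool.Agent.H801.CO.two

/-- There is a constant `C` such that every finite simple graph `G` with all degrees even and at
most `D` has a cycle odd-cover with `k ≤ D / 2 + C D^(9/10)` cycles; in particular
`c₂(G) ≤ D / 2 + C D^(9/10)`. -/
theorem result : ∃ C : ℝ, 0 < C ∧ ∀ (V : Type) [Fintype V] (G : SimpleGraph V) (D : ℕ),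
    (∀ v, Even {w | G.Adj v w}.ncard) → (∀ v, {w | G.Adj v w}.ncard ≤ D) →
    (∃ k : ℕ, HasOddCover G k ∧ (k : ℝ) ≤ D / 2 + C * (D : ℝ) ^ (9 / 10 : ℝ)) ∧
    (c2 G : ℝ) ≤ D / 2 + C * (D : ℝ) ^ (9 / 10 : ℝ) := by
  obtain ⟨C, hC, h⟩ := total_mono_aux
    (Pool.Agent.H105.CO.bound Pool.Agent.H965.CO.euler Pool.Agent.H928.CO.perms
      Pool.Agent.H53.CO.merge half (Pool.Agent.H675.CO.reps Pool.Agent.H43.CO.sel)
      Pool.Agent.H735.CO.split Pool.Agent.H703.CO.xdeg Pool.Agent.H274.CO.pure_long)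
    half Pool.Agent.H32.CO.num Pool.Agent.H873.CO.conv
  refine ⟨C, hC, fun V _ G D he hd => ?_⟩
  obtain ⟨k, hk, hk2⟩ := h V G D he hd
  refine ⟨⟨k, hk, hk2⟩, le_trans ?_ hk2⟩
  exact_mod_cast Nat.sInf_le hk

end Pool.Agent.Results.MP_5bc4af_co.AsymptoticOddCover
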